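import Mathlib
import Pool.Agent.Lib.MP_455133_co.Defs
import Pool.Agent.Lib.MP_455133_co.BO.UppB
import Pool.Agent.Lib.MP_455133_co.BT.Frac
import Pool.Agent.Lib.MP_455133_co.BT.LowD
import Pool.Agent.Lib.MP_455133_co.BT.BlockB
import Pool.Agent.Lib.MP_455133_co.BT.Plat
import Pool.Agent.Lib.MP_455133_co.BT.ThreeAll
import Pool.Agent.Lib.MP_455133_co.EM.One

/-!
When are `k` blocks optimal?

For `k = 1`: one block is optimal for all `n ≥ t` if `2 (r-1) (t-s) ≤ s - r`, for all large `n` if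
`(r-1) (t-s) ≤ s - r`, and not for large `n` if `(r-1) (t-s) > s - r`.

For all `k`: the block construction is asymptotically optimal when `t / s` exceeds the integer `k`
by less than `1 / (8 (r - 1))`, for `r = 3` by less than `1 / 2`, and not when it exceeds it by at
least `1 / (r - 1)`; so the threshold is exact for `r = 3` and all `k`, and for `k = 1` and all
`r`. The value just above `t / s = r / (r - 1)`.
-/

namespace Pool.Agent.Results.MP_455133_co.BlockThresholds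

open Finset Pool.Agent.Lib.MP_455133_co

theorem lower (n k : ℕ) (hn : 2 ≤ n) (hk : 1 ≤ k) (θ : ℝ)
    (hθ : θ < max (1 / (2 * (n : ℝ) ^ 2)) (1 / (8 * (n : ℝ))) ∨ (k = 1 ∧ θ < 1 / (n : ℝ)) ∨
      (n = 2 ∧ θ < 1 / 2)) :
    ∃ z : ℝ, (k : ℝ) + θ < z ∧ BT.FracD n z (1 - 1 / (k : ℝ) ^ n) := by
  have hn2 : (2 : ℝ) ≤ n := by exact_mod_cast hn
  rcases hθ with hθ | ⟨rfl, hθ⟩ | ⟨rfl, hθ⟩
  · rcases lt_max_iff.1 hθ with h | h
    · exact ⟨_, by linarith, BT.frac_sq hn hk⟩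
    · rcases Nat.lt_or_ge n 5 with h5 | h5
      · refine ⟨k + 1 / (2 * (n : ℝ) ^ 2), ?_, BT.frac_sq hn hk⟩
        have h4 : (n : ℝ) ≤ 4 := by exact_mod_cast (by omega : n ≤ 4)
        have h6 : 1 / (8 * (n : ℝ)) ≤ 1 / (2 * (n : ℝ) ^ 2) := by
          apply one_div_le_one_div_of_le (by positivity)
          nlinarith
        linarith
      · exact ⟨_, by linarith, BT.frac_lin h5 hk⟩
  · refine ⟨1 + 1 / (n : ℝ), by push_cast; linarith, ?_⟩
    have h := BT.frac_one hn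
    simpa using h
  · exact ⟨_, by linarith, BT.frac_three k hk⟩

/-- Upper and lower bounds combined. -/
theorem combine {n s t : ℕ} {D η : ℝ}
    (h1 : ∃ N₀ : ℕ, ∀ N : ℕ, N₀ ≤ N →
      (1 - D - η) * (N.choose (n + 1) : ℝ) ≤ (f N (n + 1) s t : ℝ))
    (h2 : ∃ N₀ : ℕ, ∀ N : ℕ, N₀ ≤ N →
      (f N (n + 1) s t : ℝ) ≤ (1 - D + η) * (N.choose (n + 1) : ℝ)) :
    ∃ N₀ : ℕ, ∀ N : ℕ, N₀ ≤ N →
      |(f N (n + 1) s t : ℝ) / (N.choose (n + 1) : ℝ) - (1 - D)| ≤ η := by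
  obtain ⟨N₁, hN₁⟩ := h1
  obtain ⟨N₂, hN₂⟩ := h2
  refine ⟨max (max N₁ N₂) (n + 1), fun N hN => ?_⟩
  have h1 := hN₁ N (by omega)
  have h2 := hN₂ N (by omega)
  have hc : (0 : ℝ) < (N.choose (n + 1) : ℝ) := by
    exact_mod_cast Nat.choose_pos (by omega)
  rw [abs_le]
  constructor
  · have : 1 - D - η ≤ (f N (n + 1) s t : ℝ) / (N.choose (n + 1) : ℝ) := by
      rw [le_div_iff₀ hc]; exact h1
    linarith
  · have : (f N (n + 1) s t : ℝ) / (N.choose (n + 1) : ℝ) ≤ 1 - D + η := by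
      rw [div_le_iff₀ hc]; exact h2
    linarith

theorem cast_cond {n k s t : ℕ} (hn : 2 ≤ n) (hts : (k + 1 / (n : ℝ)) * s ≤ t) :
    (n * k + 1) * s ≤ n * t := by
  have hn2 : (2 : ℝ) ≤ n := by exact_mod_cast hn
  have h1 : ((n : ℝ) * k + 1) * s ≤ n * t := by
    have h2 : (n : ℝ) * ((k + 1 / (n : ℝ)) * s) ≤ n * t :=
      mul_le_mul_of_nonneg_left hts (by linarith)
    have h3 : (n : ℝ) * ((k + 1 / (n : ℝ)) * s) = (n * k + 1) * s := by
      field_simp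
    linarith
  exact_mod_cast h1

theorem large_n {n r s t : ℕ} (hr : 2 ≤ r) (hst : s < t) (h : s < (r - 1) * (t - s) + r)
    (hn : (t - s) * (2 * r) ^ r < n) : t ≤ n ∧ r ≤ n := by
  obtain ⟨ρ, rfl⟩ : ∃ ρ, t = s + ρ := ⟨t - s, by omega⟩
  rw [Nat.add_sub_cancel_left] at h hn
  have hρ : 1 ≤ ρ := by omega
  have h1 : 2 * r ≤ (2 * r) ^ r := Nat.le_self_pow (by omega) _
  have h2 : ρ * (2 * r) ≤ ρ * (2 * r) ^ r := Nat.mul_le_mul_left _ h1
  have h3 : 1 * (2 * r) ≤ ρ * (2 * r) := Nat.mul_le_mul_right _ hρ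
  obtain ⟨κ, rfl⟩ : ∃ κ, r = κ + 1 := ⟨r - 1, by omega⟩
  rw [Nat.add_sub_cancel] at h
  have h4 : κ * ρ + ρ + (κ + 1) ≤ ρ * (2 * (κ + 1)) := by nlinarith
  constructor
  · omega
  · omega

/-- (0) Let `2 ≤ r < s < t`. If `(r-1) (t-s) ≤ s - r`, then `f n r s t = C(n-t+s, r)` for all
`n ≥ (2r-1) (t-s) + r`, and even for all `n ≥ t` if `2 (r-1) (t-s) ≤ s - r`; otherwise
`f n r s t < C(n-t+s, r)` for all `n > (t-s) (2r)^r`. Let `r ≥ 3`. (1) Let `k ≥ 1`. If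
`θ < max (1 / (2 (r - 1) ^ 2)) (1 / (8 (r - 1)))`, or `θ < 1 / (r - 1)` and `k = 1` or `r = 3`,
then for `k s ≤ t ≤ (k + θ) s` the value `f n r s t` is
`(k ^ (1 - r) + o(1)) C(n, r)` as `t → ∞` and then `n → ∞`: `k` equal blocks are asymptotically
optimal. (2) If `k ≥ 1` and `t ≥ (k + 1 / (r - 1)) s` then `f n r s t` is at most
`(k ^ (1 - r) - r! / (r k) ^ r + o(1)) C(n, r)` as `n → ∞`: they are not. (3) If
`θ < 1 / (r - 1 - r / (r ^ 2 + 1))`, or `r = 3` and `θ < 2 / 3`, then for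
`(1 + 1 / (r - 1)) s ≤ t ≤ (1 + θ) s` the value `f n r s t` is `(1 - r! / r ^ r + o(1)) C(n, r)` as
`t → ∞` and then `n → ∞`. -/
theorem result :
    (∀ r s t : ℕ, 2 ≤ r → r < s → s < t →
      (2 * (r - 1) * (t - s) + r ≤ s → ∀ n, t ≤ n → f n r s t = (n - t + s).choose r) ∧
      ((r - 1) * (t - s) + r ≤ s → ∀ n, t ≤ n → (2 * r - 1) * (t - s) + r ≤ n →
        f n r s t = (n - t + s).choose r) ∧
      (s < (r - 1) * (t - s) + r → ∀ n, (t - s) * (2 * r) ^ r < n →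
        f n r s t < (n - t + s).choose r)) ∧
    (∀ r : ℕ, 3 ≤ r →
    (∀ k : ℕ, 1 ≤ k → ∀ θ : ℝ,
      (θ < max (1 / (2 * ((r : ℝ) - 1) ^ 2)) (1 / (8 * ((r : ℝ) - 1))) ∨
        ((k = 1 ∨ r = 3) ∧ θ < 1 / ((r : ℝ) - 1))) → ∀ η : ℝ, 0 < η →
      ∃ t₀ : ℕ, ∀ s t : ℕ, r < s → s < t → t₀ ≤ t → k * s ≤ t → (t : ℝ) ≤ (k + θ) * s →
        ∃ n₀ : ℕ, ∀ n : ℕ, n₀ ≤ n →
          |(f n r s t : ℝ) / (n.choose r : ℝ) - 1 / (k : ℝ) ^ (r - 1)| ≤ η) ∧
    (∀ k : ℕ, 1 ≤ k → ∀ η : ℝ, 0 < η → ∀ s t : ℕ, r < s → s < t →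
      (k + 1 / ((r : ℝ) - 1)) * s ≤ t →
      ∃ n₀ : ℕ, ∀ n : ℕ, n₀ ≤ n →
        (f n r s t : ℝ) / (n.choose r : ℝ) ≤
          1 / (k : ℝ) ^ (r - 1) - (r.factorial : ℝ) / ((r : ℝ) * k) ^ r + η) ∧
    (∀ θ : ℝ, (θ < 1 / ((r : ℝ) - 1 - r / ((r : ℝ) ^ 2 + 1)) ∨ (r = 3 ∧ θ < 2 / 3)) →
      ∀ η : ℝ, 0 < η →
      ∃ t₀ : ℕ, ∀ s t : ℕ, r < s → s < t → t₀ ≤ t → (1 + 1 / ((r : ℝ) - 1)) * s ≤ t →
        (t : ℝ) ≤ (1 + θ) * s →
        ∃ n₀ : ℕ, ∀ n : ℕ, n₀ ≤ n →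
          |(f n r s t : ℝ) / (n.choose r : ℝ) - (1 - (r.factorial : ℝ) / (r : ℝ) ^ r)| ≤ η)) := by
  refine ⟨?_, ?_⟩
  · intro r s t hr hrs hst
    refine ⟨?_, ?_, ?_⟩
    · intro h n hn
      exact EM.one_exact_all (by omega) hst.le hn h
    · intro h n hn hn2
      exact EM.one_exact (by omega) hst.le hn h hn2
    · intro h n hn
      obtain ⟨h1, h2⟩ := large_n hr hst h hn
      exact EM.one_not hr hst.le h1 (by omega) h hn h2
  intro r hr
  obtain ⟨n, rfl⟩ : ∃ n, r = n + 1 := ⟨r - 1, by omega⟩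
  have hn : 2 ≤ n := by omega
  have hn2 : (2 : ℝ) ≤ n := by exact_mod_cast hn
  have e : ((n + 1 : ℕ) : ℝ) - 1 = n := by push_cast; ring
  rw [e, Nat.add_sub_cancel]
  refine ⟨?_, ?_, ?_⟩
  · intro k hk θ hθ η hη
    have hk1 : (1 : ℝ) ≤ k := by exact_mod_cast hk
    by_cases hθ0 : 0 ≤ θ
    · obtain ⟨z, hz, hfr⟩ := lower n k hn hk θ (by
        rcases hθ with h | ⟨h1 | h1, h2⟩
        · exact Or.inl h
        · exact Or.inr (Or.inl ⟨h1, h2⟩)
        · have hn3 : n = 2 := by omega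
          subst hn3
          exact Or.inr (Or.inr ⟨rfl, h2⟩))
      have hD : (0 : ℝ) ≤ 1 - 1 / (k : ℝ) ^ n := by
        have h1 : (1 : ℝ) ≤ (k : ℝ) ^ n := one_le_pow₀ hk1
        have : 1 / (k : ℝ) ^ n ≤ 1 := by
          rw [div_le_one (by linarith)]
          exact h1
        linarith
      obtain ⟨t₀, ht₀⟩ := BT.lower_bound_D (by linarith) hz hD hfr hη
      refine ⟨t₀, fun s t hs hst ht hks hts => ?_⟩
      obtain ⟨N₂, hN₂⟩ := BO.upper_bound (n := n) hk hη (s := s) (t := t) (by omega) hks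
      have h := combine (D := 1 - 1 / (k : ℝ) ^ n) (ht₀ t ht s hst.le hts) ⟨N₂, fun N hN => by
        have := hN₂ N hN
        rwa [sub_sub_cancel]⟩
      rwa [sub_sub_cancel] at h
    · push Not at hθ0
      refine ⟨0, fun s t hs hst _ hks hts => ?_⟩
      exfalso
      have h1 : ((k * s : ℕ) : ℝ) ≤ t := by exact_mod_cast hks
      push_cast at h1
      have hs0 : (0 : ℝ) < s := by exact_mod_cast (by omega : 0 < s)
      nlinarith
  · intro k hk η hη s t hs hst hts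
    obtain ⟨N₀, hN₀⟩ := BT.upper_bound_split (by omega) hk hη (by omega) (cast_cond hn hts)
    refine ⟨max N₀ (n + 1), fun N hN => ?_⟩
    have h1 := hN₀ N (by omega)
    have hc : (0 : ℝ) < (N.choose (n + 1) : ℝ) := by
      exact_mod_cast Nat.choose_pos (by omega)
    rw [div_le_iff₀ hc]
    push_cast
    exact h1
  · intro θ hθ η hη
    by_cases hθ0 : 0 ≤ θ
    · have hex : ∃ z : ℝ, 1 + θ < z ∧
          BT.FracD n z (((n + 1).factorial : ℝ) / ((n : ℝ) + 1) ^ (n + 1)) := by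
        rcases hθ with hθ | ⟨hr3, hθ⟩
        · refine ⟨_, ?_, BT.frac_plat hn⟩
          push_cast at hθ
          have e2 : (n : ℝ) - ((n : ℝ) + 1) / (((n : ℝ) + 1) ^ 2 + 1) =
              n - (n + 1) / (((n : ℝ) + 1) ^ 2 + 1) := rfl
          linarith
        · have hn3 : n = 2 := by omega
          subst hn3
          refine ⟨5 / 3, by linarith, ?_⟩
          have h := BT.frac_plat3
          have e3 : ((2 + 1).factorial : ℝ) / (((2 : ℕ) : ℝ) + 1) ^ (2 + 1) = 2 / 9 := by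
            norm_num [Nat.factorial]
          rw [e3]
          exact h
      obtain ⟨z, hz, hfr⟩ := hex
      have hD : (0 : ℝ) ≤ ((n + 1).factorial : ℝ) / ((n : ℝ) + 1) ^ (n + 1) := by positivity
      obtain ⟨t₀, ht₀⟩ := BT.lower_bound_D (by linarith) hz hD hfr hη
      refine ⟨t₀, fun s t hs hst ht hks hts => ?_⟩
      obtain ⟨N₂, hN₂⟩ := BT.upper_bound_split (n := n) (k := 1) (by omega) le_rfl hη
        (s := s) (t := t) (by omega) (cast_cond hn (by push_cast; exact hks))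
      have h := combine (ht₀ t ht s hst.le hts) ⟨N₂, fun N hN => by
        have := hN₂ N hN
        simpa using this⟩
      push_cast
      exact h
    · push Not at hθ0
      refine ⟨0, fun s t hs hst _ hks hts => ?_⟩
      exfalso
      have h0 : (0 : ℝ) ≤ 1 / (n : ℝ) := by positivity
      have hs0 : (0 : ℝ) < s := by exact_mod_cast (by omega : 0 < s)
      nlinarith

end Pool.Agent.Results.MP_455133_co.BlockThresholds
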