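import Mathlib
import Pool.Agent.Lib.MP_455133_co.Defs
import Pool.Agent.Lib.MP_455133_co.Blocks
import Pool.Agent.Lib.MP_455133_co.LR.Opt1
import Pool.Agent.Lib.MP_455133_co.LS.Small

/-!
Large `t`: the case where `n - t` is small.

`f n r s t` is the least size of the lower `r`-shadow of a family of `s`-subsets of an `n`-set
such that every `t`-set contains a member. Let `c = n - t + 1`, `w = (s-2)/(r-1)`,
`W = (s-1)/(r-1)` (both rounded down), `q = s-1+w`.

Part 1: for all `2 ≤ r < s < t < n` the lower bound `c C(q,r)/w`; equality if `l (s-1) ≤ t-1` and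
`l w ≤ c ≤ l W` for some `l` (disjoint blocks with `s-1+w` or `s-1+W` elements), for `3 ≤ r`
only in this case; the upper bound by `l` blocks; and the comparison with `c` disjoint `s`-sets.

Part 2: one block with `n - t + s` elements is optimal if `(r-1) c ≤ s-1`, `r ≥ 3`,
`s - 1 ≥ r (r-1)`, and `s - 1 ≥ 6 (r-1)^2` or `2 (s-1) ≥ (r-1) ((r-1)^2+1)`.
-/

namespace Pool.Agent.Results.MP_455133_co.LargeT

open Finset Pool.Agent.Lib.MP_455133_co

theorem upper_strict {n r s t : ℕ} (hr : 1 ≤ r) (hs : r < s) (htn : t < n)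
    (h : s * (n - t + 1) ≤ n) (h2 : 2 * r ≤ s) : f n r s t < (n - t + 1) * s.choose r := by
  obtain ⟨c, hc⟩ : ∃ c, n - t + 1 = c + 2 := ⟨n - t - 1, by omega⟩
  rw [hc] at h ⊢
  have h1 := f_le_blocks (n := n) (r := r) (s := s) (t := t) (l := c + 1)
    (Fin.cons (s + 1) (fun _ => s)) (by
      rw [Fin.sum_univ_succ]
      simp only [Fin.cons_zero, Fin.cons_succ, sum_const, card_univ, Fintype.card_fin, smul_eq_mul]
      nlinarith) (by
      rw [Fin.sum_univ_succ]
      simp only [Fin.cons_zero, Fin.cons_succ, sum_const, card_univ, Fintype.card_fin, smul_eq_mul]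
      obtain ⟨N, rfl⟩ : ∃ N, s = N + 1 := ⟨s - 1, by omega⟩
      simp only [Nat.add_sub_cancel, Nat.mul_add, Nat.add_mul]
      omega) (by omega)
  rw [Fin.sum_univ_succ] at h1
  simp only [Fin.cons_zero, Fin.cons_succ, sum_const, card_univ, Fintype.card_fin,
    smul_eq_mul] at h1
  have h3 : (s + 1).choose r < 2 * s.choose r := by
    obtain ⟨ρ, rfl⟩ : ∃ ρ, r = ρ + 1 := ⟨r - 1, by omega⟩
    rw [Nat.choose_succ_succ']
    have h4 : s.choose ρ < s.choose (ρ + 1) := by
      have h5 := Nat.choose_succ_right_eq s ρ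
      have h6 : 0 < s.choose ρ := Nat.choose_pos (by omega)
      have h7 : ρ + 1 < s - ρ := by omega
      by_contra hge
      push Not at hge
      have h8 : s.choose (ρ+1) * (ρ + 1) ≤ s.choose ρ * (ρ + 1) := Nat.mul_le_mul_right _ hge
      have h9 : s.choose ρ * (ρ + 1) < s.choose ρ * (s - ρ) := Nat.mul_lt_mul_of_pos_left h7 h6
      omega
    omega
  calc f n r s t ≤ (s + 1).choose r + c * s.choose r := h1
    _ < 2 * s.choose r + c * s.choose r := by omega
    _ = (c + 2) * s.choose r := by ring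

theorem disjoint_iff {n r s t : ℕ} (hr : 2 ≤ r) (hrs : r < s) (hst : s < t) (htn : t < n)
    (h : s * (n - t + 1) ≤ n) : f n r s t = (n - t + 1) * s.choose r ↔ s ≤ 2 * r - 1 := by
  constructor
  · intro heq
    by_contra hlt
    have := upper_strict (by omega) hrs htn h (by omega)
    omega
  · intro h2
    obtain ⟨-, h3, -, -⟩ := LR.exact_large n r s t hr hrs hst htn
    have hr1 : 0 < r - 1 := by omega
    have hw : (s - 2) / (r - 1) = 1 := by
      rw [Nat.div_eq_iff hr1]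
      constructor
      · omega
      · omega
    have hW : 1 ≤ (s - 1) / (r - 1) := by rw [Nat.le_div_iff_mul_le hr1]; omega
    have h4 := h3 (n - t + 1) (by
      obtain ⟨N, rfl⟩ : ∃ N, s = N + 1 := ⟨s - 1, by omega⟩
      rw [Nat.add_sub_cancel, Nat.mul_comm]
      rw [Nat.add_mul] at h
      omega) (by rw [hw]; omega) (by nlinarith)
    rw [hw, one_mul, show 1 + (s - 1) = s by omega] at h4
    exact h4

theorem result :
    (∀ n r s t : ℕ, 2 ≤ r → r < s → s < t → t < n →
      (n - t + 1) * (s - 1 + (s - 2) / (r - 1)).choose r ≤ (s - 2) / (r - 1) * f n r s t ∧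
      (∀ l : ℕ, l * (s - 1) ≤ t - 1 → l * ((s - 2) / (r - 1)) ≤ n - t + 1 →
        n - t + 1 ≤ l * ((s - 1) / (r - 1)) →
        (s - 2) / (r - 1) * f n r s t =
          (n - t + 1) * (s - 1 + (s - 2) / (r - 1)).choose r) ∧
      (3 ≤ r →
        (s - 2) / (r - 1) * f n r s t =
          (n - t + 1) * (s - 1 + (s - 2) / (r - 1)).choose r →
        ∃ l : ℕ, l * (s - 1) ≤ t - 1 ∧ l * ((s - 2) / (r - 1)) ≤ n - t + 1 ∧
          n - t + 1 ≤ l * ((s - 1) / (r - 1))) ∧
      (∀ l : ℕ, l * (s - 1) ≤ t - 1 → n - t + 1 ≤ l * ((s - 2) / (r - 1)) →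
        f n r s t ≤ l * (s - 1 + (s - 2) / (r - 1)).choose r) ∧
      (s * (n - t + 1) ≤ n → (f n r s t = (n - t + 1) * s.choose r ↔ s ≤ 2 * r - 1))) ∧
    (∀ n r s t : ℕ, 3 ≤ r →
      ((r - 1) * ((r - 1) ^ 2 + 1) ≤ 2 * (s - 1) ∨ 6 * (r - 1) ^ 2 ≤ s - 1) →
      (r - 1) * r ≤ s - 1 → s ≤ t → t ≤ n → (r - 1) * (n - t + 1) ≤ s - 1 →
      f n r s t = (n - t + s).choose r) := by
  refine ⟨?_, ?_⟩
  · intro n r s t hr hrs hst htn
    have h := LR.exact_large n r s t hr hrs hst htn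
    rw [add_comm ((s - 2) / (r - 1)) (s - 1)] at h
    exact ⟨h.1, h.2.1, h.2.2.1, h.2.2.2, disjoint_iff hr hrs hst htn⟩
  · intro n r s t hr hs h6 hst htn hc
    exact LS.small_exact hr hs h6 hst htn hc

end Pool.Agent.Results.MP_455133_co.LargeT
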