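import Mathlib
import Pool.Agent.Lib.MP_455133_co.Defs
import Pool.Agent.Lib.MP_455133_co.Blocks
import Pool.Agent.Lib.MP_455133_co.LS.Main2
import Pool.Agent.Lib.MP_455133_co.LS.Conv
import Pool.Agent.Lib.MP_455133_co.WN.Exact

/-!
Optimality of disjoint blocks.

`f n r s t` is the least size of the lower `r`-shadow of a family of `s`-subsets of an `n`-set
such that every `t`-set contains a member. Let `w = (s-2)/(r-1)` (rounded down), `q = s-1+w`.

Part 1 (a theorem of Turan type): if `3 ≤ r` and `s - 1 ≥ 6 (r-1)^2`, or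
`2 (s-1) ≥ (r-1) ((r-1)^2+1)`, then for `t = k(s-1)+1` and all `n ≥ k q` the value of `f` is the
number of `r`-sets inside the blocks of a balanced partition in `k` blocks.

Part 2 (windows): if `t = k(s-1)+1+j` and `s - 1 ≥ (j+1) 6 r^2`, or `2 (s-1) ≥ (j+1) r (r^2+1)`,
then for all large `n` the value of `f` is the number of `r`-sets inside the blocks of a balanced
partition of `n - j` points in `k` blocks.

Part 3: explicit bounds in the windows, for all `n` which are not too small.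

Part 4: for `j = 0` the number in Part 1 is more than twice the value of `f` if
`r^2 ≥ 32 s log s` (and `r < s`, `k ≥ 2`, `2 t ≤ n ≤ t e^s`).

Part 5: the case `t = k s`, `k | n`.
-/

namespace Pool.Agent.Results.MP_455133_co.OptimalBlocks

open Finset Pool.Agent.Lib.MP_455133_co

theorem lower_all {n r s t q : ℕ} (hr : 3 ≤ r)
    (hs : (r - 1) * ((r - 1) ^ 2 + 1) ≤ 2 * (s - 1) ∨ 6 * (r - 1) ^ 2 ≤ s - 1) (hst : s ≤ t)
    (hq : s - 1 + (s - 2) / (r - 1) ≤ q) :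
    n * (s - 1) * q.choose (r - 1) ≤
      (s - 1) * f n r s t + (r - 1) * (t - 1) * (q + 1).choose r := by
  refine LS.turan_lower2 hr hs hst ?_
  have hr1 : 0 < r - 1 := by omega
  have hw : s - 2 < ((s - 2) / (r - 1) + 1) * (r - 1) := by
    have := Nat.lt_mul_div_succ (s - 2) hr1
    rw [mul_comm]; exact this
  have h1 : (r - 1) * (s - 1 + (s - 2) / (r - 1) + 1) ≤ (r - 1) * (q + 1) :=
    Nat.mul_le_mul_left _ (by omega)
  have h2 : (r - 1) * (s - 1 + (s - 2) / (r - 1) + 1) =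
      ((s - 2) / (r - 1) + 1) * (r - 1) + (r - 1) * (s - 1) := by ring
  have h3 : r * (s - 1) = (s - 1) + (r - 1) * (s - 1) := by
    obtain ⟨p, rfl⟩ : ∃ p, r = p + 1 := ⟨r - 1, by omega⟩
    rw [Nat.add_sub_cancel]
    ring
  omega

theorem multiple {r s k N : ℕ} (hr : 3 ≤ r)
    (hs : (r - 1) * ((r - 1) ^ 2 + 1) ≤ 2 * (s - 1) ∨ 6 * (r - 1) ^ 2 ≤ s - 1) (hk : 1 ≤ k)
    (hN : s - 1 + (s - 2) / (r - 1) < N) :
    (s - 1) * (k * N.choose r) ≤
      (s - 1) * f (k * N) r s (k * s) + (r - 1) * (k - 1) * N.choose r ∧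
    f (k * N) r s (k * s) ≤ k * N.choose r := by
  have hs2 : 2 ≤ s := by
    have h1 : 0 < (r - 1) ^ 2 := pow_pos (by omega) 2
    have h2 : 0 < (r - 1) * ((r - 1) ^ 2 + 1) := Nat.mul_pos (by omega) (by omega)
    rcases hs with h | h <;> omega
  constructor
  · have hN0 : 0 < N := lt_of_le_of_lt (Nat.zero_le _) hN
    obtain ⟨m, rfl⟩ : ∃ m, N = m + 1 := ⟨N - 1, by omega⟩
    have h := lower_all (n := k * (m + 1)) (t := k * s) (q := m) hr hs
      (by nlinarith) (Nat.lt_succ_iff.mp hN)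
    obtain ⟨ρ, rfl⟩ : ∃ ρ, r = ρ + 1 := ⟨r - 1, by omega⟩
    rw [Nat.add_sub_cancel] at h ⊢
    have h1 := Nat.add_one_mul_choose_eq m ρ
    obtain ⟨X, hX⟩ : ∃ X, X = (m + 1).choose (ρ + 1) := ⟨_, rfl⟩
    rw [← hX] at h h1 ⊢
    obtain ⟨σ, rfl⟩ : ∃ σ, s = σ + 1 := ⟨s - 1, by omega⟩
    obtain ⟨κ, rfl⟩ : ∃ κ, k = κ + 1 := ⟨k - 1, by omega⟩
    rw [Nat.add_sub_cancel] at h ⊢
    rw [Nat.add_sub_cancel]
    have h2 : (κ + 1) * (m + 1) * σ * m.choose ρ = (κ + 1) * σ * (X * (ρ + 1)) := by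
      rw [← h1]; ring
    rw [h2] at h
    have h3 : (κ + 1) * (σ + 1) - 1 = (κ + 1) * σ + κ := by
      have : (κ + 1) * (σ + 1) = (κ + 1) * σ + κ + 1 := by ring
      omega
    rw [h3] at h
    nlinarith
  · have h := f_le_blocks (n := k * N) (r := r) (s := s) (t := k * s) (l := k) (fun _ => N)
      (by simp) (by
        simp only [sum_const, card_univ, Fintype.card_fin, smul_eq_mul]
        have h1 : k * (s - 1) + k = k * s := by
          obtain ⟨σ, rfl⟩ : ∃ σ, s = σ + 1 := ⟨s - 1, by omega⟩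
          rw [Nat.add_sub_cancel]; ring
        omega) (by omega)
    simpa using h

/-- The exact value in the windows, for large `n`. -/
theorem windows {r s k j : ℕ} (hr : 3 ≤ r)
    (hs : (j + 1) * (r * (r ^ 2 + 1)) ≤ 2 * (s - 1) ∨ (j + 1) * (6 * r ^ 2) ≤ s - 1)
    (hk : 1 ≤ k) :
    ∃ n₀ : ℕ, ∀ n : ℕ, n₀ ≤ n → f n r s (k * (s - 1) + 1 + j) =
      (k - (n - j) % k) * ((n - j) / k).choose r +
        ((n - j) % k) * ((n - j) / k + 1).choose r := by
  obtain ⟨p, rfl⟩ : ∃ p, r = p + 3 := ⟨r - 3, by omega⟩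
  obtain ⟨a, rfl⟩ : ∃ a, s = a + 1 := by
    have h1 : 0 < (j + 1) * ((p + 3) * ((p + 3) ^ 2 + 1)) := by positivity
    have h2 : 0 < (j + 1) * (6 * (p + 3) ^ 2) := by positivity
    exact ⟨s - 1, by omega⟩
  rw [Nat.add_sub_cancel] at hs ⊢
  have e2 : k * a + 1 + j = k * a + (j + 1) := by ring
  rw [e2]
  have hev : ∃ c, (p + 3) * ((p + 3) ^ 2 + 1) = 2 * c := by
    obtain ⟨c, hc⟩ | ⟨c, hc⟩ := Nat.even_or_odd (p + 3)
    · exact ⟨c * ((p + 3) ^ 2 + 1), by rw [hc]; ring⟩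
    · exact ⟨(p + 3) * (2 * c ^ 2 + 2 * c + 1), by rw [hc]; ring⟩
  obtain ⟨c, hc⟩ := hev
  obtain ⟨n₀, hn₀⟩ : ∃ n₀ : ℕ, ∀ n : ℕ, n₀ ≤ n →
      f n (p + 3) (a + 1) (k * a + (j + 1)) = WN.bal k (n - (j + 1 - 1)) (p + 3) := by
    rcases hs with h | h
    · refine WN.exact_n (a₀ := c) hk (by omega) (Or.inl (le_of_eq hc)) ?_
      rw [hc] at h
      have : (j + 1) * (2 * c) = 2 * ((j + 1) * c) := by ring
      omega
    · exact WN.exact_n (a₀ := 6 * (p + 3) ^ 2) hk (by omega) (Or.inr le_rfl) h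
  refine ⟨n₀, fun n hn => ?_⟩
  rw [hn₀ n hn, Nat.add_sub_cancel]
  rfl

/-- Let `r ≥ 3`, `k ≥ 1`, and let `B m` be the number of `r`-sets inside the blocks of a partition
of `m` points in `k` blocks of sizes `m / k` and `m / k + 1`. (1) `f n r s (k(s-1)+1) = B n` for all
`n ≥ k q`, for large `s`. (2) `f n r s (k(s-1)+1+j) = B (n-j)` for all large `n`, if
`s - 1 ≥ (j+1) 6 r^2` or `2 (s-1) ≥ (j+1) r (r^2+1)`. (3) Explicit bounds. (4) `2 f < B n` for
`t = k(s-1)+1` if `32 s log s ≤ r^2`. (5) The case `t = k s`, `n = k N`. -/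
theorem result :
    (∀ n r s k : ℕ, 3 ≤ r →
      ((r - 1) * ((r - 1) ^ 2 + 1) ≤ 2 * (s - 1) ∨ 6 * (r - 1) ^ 2 ≤ s - 1) → 1 ≤ k →
      k * (s - 1 + (s - 2) / (r - 1)) ≤ n →
      f n r s (k * (s - 1) + 1) =
        (k - n % k) * (n / k).choose r + (n % k) * (n / k + 1).choose r) ∧
    (∀ r s k j : ℕ, 3 ≤ r →
      ((j + 1) * (r * (r ^ 2 + 1)) ≤ 2 * (s - 1) ∨ (j + 1) * (6 * r ^ 2) ≤ s - 1) → 1 ≤ k →
      ∃ n₀ : ℕ, ∀ n : ℕ, n₀ ≤ n → f n r s (k * (s - 1) + 1 + j) =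
        (k - (n - j) % k) * ((n - j) / k).choose r +
          ((n - j) % k) * ((n - j) / k + 1).choose r) ∧
    (∀ n r s k j c : ℕ, 3 ≤ r →
      ((r - 1) * ((r - 1) ^ 2 + 1) ≤ 2 * c ∨ 6 * (r - 1) ^ 2 ≤ c) → 1 ≤ k →
      (j + 1) * c ≤ s - 1 → k * (s - 1 + (s - 2) / (r - 1)) + j * (k * c + 1) ≤ n →
      (k - (n - j * (k * c + 1)) % k) * ((n - j * (k * c + 1)) / k).choose r +
        ((n - j * (k * c + 1)) % k) * ((n - j * (k * c + 1)) / k + 1).choose r ≤
          f n r s (k * (s - 1) + 1 + j) ∧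
      f n r s (k * (s - 1) + 1 + j) ≤
        (k - (n - j) % k) * ((n - j) / k).choose r +
          ((n - j) % k) * ((n - j) / k + 1).choose r) ∧
    (∀ n r s k : ℕ, 1 ≤ r → r < s → 32 * (s : ℝ) * Real.log s ≤ (r : ℝ) ^ 2 → 2 ≤ k →
      2 * (k * (s - 1) + 1) ≤ n → (n : ℝ) ≤ ((k * (s - 1) + 1 : ℕ) : ℝ) * Real.exp s →
      2 * f n r s (k * (s - 1) + 1) <
        (k - n % k) * (n / k).choose r + (n % k) * (n / k + 1).choose r) ∧
    (∀ r s k N : ℕ, 3 ≤ r →
      ((r - 1) * ((r - 1) ^ 2 + 1) ≤ 2 * (s - 1) ∨ 6 * (r - 1) ^ 2 ≤ s - 1) → 1 ≤ k →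
      s - 1 + (s - 2) / (r - 1) < N →
      (s - 1) * (k * N.choose r) ≤
        (s - 1) * f (k * N) r s (k * s) + (r - 1) * (k - 1) * N.choose r ∧
      f (k * N) r s (k * s) ≤ k * N.choose r) := by
  refine ⟨?_, ?_, ?_, ?_, ?_⟩
  · intro n r s k hr hs hk hn
    exact LS.turan_exact2 hr hs hk (by rw [add_comm ((s - 2) / (r - 1))]; exact hn)
  · intro r s k j hr hs hk
    exact windows hr hs hk
  · intro n r s k j c hr hc hk hj hn
    obtain ⟨a, rfl⟩ : ∃ a, s = a + 1 := by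
      have h1 : 0 < c := by
        have h2 : 0 < (r - 1) ^ 2 := pow_pos (by omega) 2
        have h3 : 0 < (r - 1) * ((r - 1) ^ 2 + 1) := Nat.mul_pos (by omega) (by omega)
        rcases hc with h | h <;> omega
      have h4 : 0 < (j + 1) * c := Nat.mul_pos (by omega) h1
      exact ⟨s - 1, by omega⟩
    have e1 : a + 1 - 2 = a - 1 := by omega
    rw [Nat.add_sub_cancel] at hj hn ⊢
    rw [e1] at hn
    have e2 : k * a + 1 + j = k * a + (j + 1) := by ring
    have h1 := WN.window_lower (n := n) (b := j + 1) hr hc hk (by omega) hj (by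
      rw [Nat.add_sub_cancel, add_comm ((a - 1) / (r - 1))]; exact hn)
    have h2 := WN.window_upper (n := n) (r := r) (a := a) (b := j + 1) hk (by omega) (by
      have : j * 1 ≤ j * (k * c + 1) := Nat.mul_le_mul_left _ (by omega)
      omega)
    rw [Nat.add_sub_cancel] at h1 h2
    rw [e2]
    exact ⟨h1, h2⟩
  · intro n r s k hr1 hrs hr hk h1 h2
    refine not_optimal hk hr1 hrs hr h1 ?_
    have hn : (0 : ℝ) < n := by
      have : 0 < n := by omega
      exact_mod_cast this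
    have ht : (0 : ℝ) < ((k * (s - 1) + 1 : ℕ) : ℝ) := by positivity
    rw [← Real.log_exp (s : ℝ)]
    apply Real.log_le_log (div_pos hn ht)
    rw [div_le_iff₀ ht]
    linarith
  · intro r s k N hr hs hk hN
    exact multiple hr hs hk hN

end Pool.Agent.Results.MP_455133_co.OptimalBlocks
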