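import Mathlib
import Pool.Agent.Lib.MP_455133_co.Defs
import Pool.Agent.Lib.MP_455133_co.Lower
import Pool.Agent.Lib.MP_455133_co.Upper

/-!
Two-sided bounds for `f n r s t`, for all `1 ≤ r < s < t < n`, which differ by a factor
polynomial in `s` times a logarithm.
-/

namespace Pool.Agent.Results.MP_455133_co.TwoSidedBound

open Finset Pool.Agent.Lib.MP_455133_co

/-- With `G = (t/s) * ((n-t+1)/(n-r+1)) * C(s,r) * C(n,r) / C(t,r)`, the minimum shadow size
`f n r s t` lies between `G` and `14 s √(s-r+1) (2 + log (n / min t (n-t))) G`; the third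
inequality is a finer form of the upper bound. -/
theorem result (n r s t : ℕ) (hr : 1 ≤ r) (hrs : r < s) (hst : s < t) (htn : t < n) (G : ℝ)
    (hG : G = (t : ℝ) / s * (((n : ℝ) - t + 1) / ((n : ℝ) - r + 1)) *
      ((s.choose r : ℝ) * (n.choose r : ℝ) / (t.choose r : ℝ))) :
    G ≤ (f n r s t : ℝ) ∧
    (f n r s t : ℝ) ≤ 14 * s * Real.sqrt ((s : ℝ) - r + 1) *
      (2 + Real.log ((n : ℝ) / (min t (n - t) : ℕ))) * G ∧
    (f n r s t : ℝ) ≤ 7 * Real.sqrt ((s : ℝ) - r + 1) * (1 + Real.log (n.choose t)) *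
      ((s.choose r : ℝ) * (n.choose r : ℝ) / (t.choose r : ℝ)) := by
  have hsR : (0 : ℝ) < s := by exact_mod_cast (by omega : 0 < s)
  have htR : (0 : ℝ) < t := by exact_mod_cast (by omega : 0 < t)
  have hrR : (1 : ℝ) ≤ r := by exact_mod_cast hr
  have hrn : (r : ℝ) < n := by exact_mod_cast (by omega : r < n)
  have htnR : (t : ℝ) < n := by exact_mod_cast htn
  have p4 : (0 : ℝ) < (t.choose r : ℝ) := by exact_mod_cast Nat.choose_pos (by omega)
  have p5 : (0 : ℝ) < (s.choose r : ℝ) := by exact_mod_cast Nat.choose_pos (by omega)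
  have p6 : (0 : ℝ) < (n.choose r : ℝ) := by exact_mod_cast Nat.choose_pos (by omega)
  have h1 := f_lower n r s t hr hrs hst htn
  have h2 := f_upper hrs hst htn
  set Q : ℝ := (s.choose r : ℝ) * (n.choose r : ℝ) / (t.choose r : ℝ) with hQ
  have hQ0 : 0 < Q := by positivity
  set S := Real.sqrt ((s : ℝ) - r + 1) with hS
  have hS0 : 0 ≤ S := Real.sqrt_nonneg _
  have h3 := log_choose_min (n := n) (t := t) (by omega) htn
  refine ⟨?_, ?_, ?_⟩
  · -- the two forms of the lower bound agree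
    refine le_trans (le_of_eq ?_) h1
    have e1 : (s : ℝ) * ((s - 1).choose (r - 1) : ℝ) = r * (s.choose r : ℝ) := by
      obtain ⟨ρ, rfl⟩ : ∃ ρ, r = ρ + 1 := ⟨r - 1, by omega⟩
      obtain ⟨N, rfl⟩ : ∃ N, s = N + 1 := ⟨s - 1, by omega⟩
      have := Nat.add_one_mul_choose_eq N ρ
      simp only [Nat.add_sub_cancel]
      have h : ((N : ℝ) + 1) * (N.choose ρ : ℝ) =
          ((N + 1).choose (ρ + 1) : ℝ) * ((ρ : ℝ) + 1) := by exact_mod_cast this
      push_cast
      linarith
    have e2 : (t : ℝ) * ((t - 1).choose (r - 1) : ℝ) = r * (t.choose r : ℝ) := by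
      obtain ⟨ρ, rfl⟩ : ∃ ρ, r = ρ + 1 := ⟨r - 1, by omega⟩
      obtain ⟨N, rfl⟩ : ∃ N, t = N + 1 := ⟨t - 1, by omega⟩
      have := Nat.add_one_mul_choose_eq N ρ
      simp only [Nat.add_sub_cancel]
      have h : ((N : ℝ) + 1) * (N.choose ρ : ℝ) =
          ((N + 1).choose (ρ + 1) : ℝ) * ((ρ : ℝ) + 1) := by exact_mod_cast this
      push_cast
      linarith
    have e3 : ((s - 1).choose (r - 1) : ℝ) = r * (s.choose r : ℝ) / s := by
      field_simp; linarith
    have e4 : ((t - 1).choose (r - 1) : ℝ) = r * (t.choose r : ℝ) / t := by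
      field_simp; linarith
    rw [hG, e3, e4, hQ]
    have : (0 : ℝ) < (n : ℝ) - r + 1 := by linarith
    field_simp
  · have hD : (0 : ℝ) < (n : ℝ) - r + 1 := by linarith
    set Λ := 2 + Real.log ((n : ℝ) / (min t (n - t) : ℕ)) with hΛ
    have h4 : (1 + Real.log (n.choose t)) ≤ 2 * Λ * (t * ((n : ℝ) - t + 1)) / ((n : ℝ) - r + 1) := by
      rw [le_div_iff₀ hD]
      have hL0 : 0 ≤ 1 + Real.log (n.choose t) := by
        have : (1 : ℝ) ≤ (n.choose t : ℝ) := by exact_mod_cast Nat.choose_pos htn.le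
        have := Real.log_nonneg this
        linarith
      refine le_trans (mul_le_mul_of_nonneg_left (by linarith : (n : ℝ) - r + 1 ≤ n) hL0) h3
    calc (f n r s t : ℝ) ≤ (1 + Real.log (n.choose t)) * (7 * S * Q) := h2
      _ ≤ (2 * Λ * (t * ((n : ℝ) - t + 1)) / ((n : ℝ) - r + 1)) * (7 * S * Q) :=
          mul_le_mul_of_nonneg_right h4 (by positivity)
      _ = 14 * s * S * Λ * G := by rw [hG]; field_simp; ring
  · calc (f n r s t : ℝ) ≤ (1 + Real.log (n.choose t)) * (7 * S * Q) := h2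
      _ = _ := by ring

end Pool.Agent.Results.MP_455133_co.TwoSidedBound
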